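import Pool.Agent.N798.W.Stm
import Pool.Agent.N75.HS.NP

/-!
Project HW (helper798), step GP: the sequence `p_(m+1) - (m + 1)`.
-/

set_option autoImplicit false

namespace Pool.Agent.N403.HW.GP

open Pool.Agent.N798.HS (Sq)
open Pool.Agent.N798.HW

/-- consecutive odd primes differ by at least two -/
lemma step (m : ℕ) (hm : 1 ≤ m) : Nat.nth Nat.Prime m + 2 ≤ Nat.nth Nat.Prime (m + 1) := by
  have h1 : Nat.nth Nat.Prime m < Nat.nth Nat.Prime (m + 1) :=
    Nat.nth_strictMono Nat.infinite_setOfPred_prime (Nat.lt_succ_self m)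
  have h3 : Nat.nth Nat.Prime 1 = 3 := Nat.nth_prime_one_eq_three
  have h4 : 3 ≤ Nat.nth Nat.Prime m := by
    rw [← h3]
    exact (Nat.nth_strictMono Nat.infinite_setOfPred_prime).monotone hm
  have h5 : Nat.nth Nat.Prime m % 2 = 1 :=
    (Nat.prime_nth_prime m).mod_two_eq_one_iff_ne_two.2 (by omega)
  have h6 : Nat.nth Nat.Prime (m + 1) % 2 = 1 :=
    (Nat.prime_nth_prime (m + 1)).mod_two_eq_one_iff_ne_two.2 (by omega)
  omega

lemma ge_two (m : ℕ) (hm : 1 ≤ m) : m + 2 ≤ Nat.nth Nat.Prime m := by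
  induction m, hm using Nat.le_induction with
  | base =>
    have h3 : Nat.nth Nat.Prime 1 = 3 := Nat.nth_prime_one_eq_three
    omega
  | succ m hm ih =>
    have := step m hm
    omega

lemma mono (m : ℕ) (hm : 1 ≤ m) (n : ℕ) (hn : m + 1 ≤ n) :
    Nat.nth Nat.Prime m - (m + 1) < Nat.nth Nat.Prime n - (n + 1) := by
  induction n, hn using Nat.le_induction with
  | base =>
    have h1 := step m hm
    have h2 := ge_two m hm
    omega
  | succ n hn ih =>
    have h1 := step n (by omega)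
    have h2 := ge_two n (by omega)
    omega

theorem gp : S_GP := by
  obtain ⟨-, -, C, n0, h⟩ := Pool.Agent.N75.HS.np
  refine ⟨fun m n hm hmn => mono m hm n hmn, ?_, 1 + 2 * C, n0 + 8, fun n hn => ?_⟩
  · show 1 ≤ Nat.nth Nat.Prime 1 - (1 + 1)
    have h3 : Nat.nth Nat.Prime 1 = 3 := Nat.nth_prime_one_eq_three
    omega
  · show ((Nat.nth Nat.Prime n - (n + 1) : ℕ) : ℝ) ≤ n * Real.log n ^ (1 + 2 * C)
    have h1 := h (n + 1) (by omega)
    simp only [Nat.add_sub_cancel] at h1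
    have hn8 : (8 : ℝ) ≤ n := by exact_mod_cast (by omega : 8 ≤ n)
    have hn0 : (0 : ℝ) < n := by linarith
    have he : Real.exp 2 ≤ 8 := by
      have h2 := Real.exp_one_lt_d9
      have h3 : Real.exp 2 = Real.exp 1 * Real.exp 1 := by
        rw [← Real.exp_add]
        norm_num
      have h4 : 0 < Real.exp 1 := Real.exp_pos 1
      rw [h3]
      nlinarith
    have hL : 2 ≤ Real.log n := (Real.le_log_iff_exp_le hn0).2 (he.trans hn8)
    have hL1 : Real.log ((n + 1 : ℕ) : ℝ) ≤ Real.log n ^ 2 := by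
      have h2 : Real.log ((n + 1 : ℕ) : ℝ) ≤ Real.log ((n : ℝ) ^ 2) := by
        apply Real.log_le_log (by positivity)
        push_cast
        nlinarith
      rw [Real.log_pow] at h2
      push_cast at h2 ⊢
      nlinarith
    have hL0 : 0 ≤ Real.log ((n + 1 : ℕ) : ℝ) := Real.log_natCast_nonneg _
    have h5 : ((Nat.nth Nat.Prime n - (n + 1) : ℕ) : ℝ) ≤ (Nat.nth Nat.Prime n : ℝ) := by
      exact_mod_cast Nat.sub_le _ _
    calc ((Nat.nth Nat.Prime n - (n + 1) : ℕ) : ℝ) ≤ (Nat.nth Nat.Prime n : ℝ) := h5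
      _ ≤ ((n + 1 : ℕ) : ℝ) * Real.log ((n + 1 : ℕ) : ℝ) ^ C := h1
      _ ≤ (n * Real.log n) * (Real.log n ^ 2) ^ C := by
          have h6 : ((n + 1 : ℕ) : ℝ) ≤ n * Real.log n := by
            push_cast
            nlinarith
          gcongr
      _ = n * Real.log n ^ (1 + 2 * C) := by
          rw [pow_add, pow_mul]
          ring

end Pool.Agent.N403.HW.GP
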